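import Pool.Agent.N637.SLK.Lin
import Pool.Agent.N701.SLX.Mom

/-!
# Project SLK (helper637), part MOM (subtask 5450), by helper456: the moments, for several forms
(after Pool.Agent.N701.SLX.Mom of helper701)
-/

set_option autoImplicit false
set_option linter.unusedVariables false
set_option linter.unusedSectionVars false

open scoped Classical

namespace Pool.Agent.N456.SLK

open Finset Filter Topology
open Pool.Agent.N916.GB (ps sx pt)
open Pool.Agent.N637.SLX (IsLk Bf Ind Cor Alt alt hh Ueq Cpt Sol Cmp Srj Aff S_EQS)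
open Pool.Agent.N637.SLK
open Pool.Agent.N701.SLX (KK KK_eq srj_bound Pn Pn_srj Pn_le Bf_self Bf_symm)

lemma Fm_self {V : Type} [Fintype V] {L : ℕ} (f : Fin L → V → ZMod 2) (c : Fin L → ZMod 2)
    (y : V → ZMod 2) : Fm f c y y = 0 := by
  unfold Fm
  exact sum_eq_zero fun l _ => by rw [Bf_self, mul_zero]

lemma Fm_symm {V : Type} [Fintype V] {L : ℕ} (f : Fin L → V → ZMod 2) (c : Fin L → ZMod 2)
    (y z : V → ZMod 2) : Fm f c y z = Fm f c z y := by
  unfold Fm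
  exact sum_congr rfl fun l _ => by rw [Bf_symm]

/-- the families of alternating matrices whose upper left parts have the coranks `j` -/
noncomputable def BB (k r i : ℕ) (j : Fin k → ℕ) :
    Finset (Fin k → Fin (r + i) → Fin (r + i) → ZMod 2) :=
  univ.filter fun β => ∀ x, Alt (β x) ∧
    Cor (fun a b : Fin r => β x (Fin.castAdd i a) (Fin.castAdd i b)) (j x)

lemma BB_card (k r i : ℕ) (j : Fin k → ℕ) : (BB k r i j).card = ∏ x, KK r i (j x) := by
  unfold KK
  rw [← Fintype.card_piFinset]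
  congr 1
  ext β
  simp only [BB, mem_filter, mem_univ, true_and, Fintype.mem_piFinset]

lemma BB_eq (k r i : ℕ) (j : Fin k → ℕ) :
    ((BB k r i j).card : ℝ) / 2 ^ (k * ((r + i) * (r + i - 1) / 2)) =
      ∏ x, ((alt r (j x) : ℝ) / 2 ^ (r * (r - 1) / 2)) := by
  rw [BB_card, mul_comm k, pow_mul]
  push_cast
  have h1 : ((2 : ℝ) ^ ((r + i) * (r + i - 1) / 2)) ^ k =
      ∏ _x : Fin k, (2 : ℝ) ^ ((r + i) * (r + i - 1) / 2) := by
    rw [prod_const, card_univ, Fintype.card_fin]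
  rw [h1, ← prod_div_distrib]
  refine prod_congr rfl fun x _ => ?_
  rw [div_eq_div_iff (by positivity) (by positivity)]
  exact_mod_cast KK_eq r i (j x)

section main

variable {U J : Type} [Fintype U] [Fintype J] [LinearOrder J] {k L : ℕ}

lemma Stg_mono {w u : U ⊕ J → ZMod 2} {f : Fin L → U ⊕ J → ZMod 2} {c : Fin k → Fin L → ZMod 2}
    {N : U ⊕ J → U ⊕ J → ZMod 2} {V₀ V₁ : ℕ}
    (h : Stg U J w u f c N V₀) (hV : V₁ ≤ V₀) : Stg U J w u f c N V₁ :=
  { h with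
    cc := fun s γ hs => (Nat.mul_le_mul_right _ hV).trans (h.cc s γ hs) }

/-- the condition on the Gram matrices -/
def CG (f : Fin L → U ⊕ J → ZMod 2) (c : Fin k → Fin L → ZMod 2) (r i : ℕ) (j : Fin k → ℕ)
    (y : Fin (r + i) → U ⊕ J → ZMod 2) : Prop :=
  ∀ x : Fin k, Cor (fun a b : Fin r => Fm f (c x) (y (Fin.castAdd i a)) (y (Fin.castAdd i b))) (j x)

/-- the compatible tuples -/
def Gp (f : Fin L → U ⊕ J → ZMod 2) (c : Fin k → Fin L → ZMod 2) (N : U ⊕ J → U ⊕ J → ZMod 2)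
    (r i : ℕ) (j : Fin k → ℕ) (y : Fin (r + i) → U ⊕ J → ZMod 2) : Prop :=
  (∀ a, Ueq N (y a)) ∧ (∀ a b, Cpt N (y a) (y b)) ∧ CG f c r i j y

lemma sum_Tn' {V Ω : Type} [Fintype V] [Fintype Ω] (w : V → ZMod 2) (f : Fin L → V → ZMod 2)
    (c : Fin k → Fin L → ZMod 2) (N : Ω → V → V → ZMod 2)
    (r i : ℕ) (j : Fin k → ℕ) : ∑ σ : Ω, TnF w f c (N σ) r i j =
      ∑ y : Fin (r + i) → V → ZMod 2, if Ind w y ∧
        (∀ x : Fin k, Cor (fun a b : Fin r => Fm f (c x) (y (Fin.castAdd i a))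
          (y (Fin.castAdd i b))) (j x)) then
        (univ.filter fun σ : Ω => ∀ a, IsLk (N σ) (y a)).card else 0 := by
  unfold TnF
  simp only [card_filter]
  rw [sum_comm]
  refine sum_congr rfl fun y _ => ?_
  by_cases h : Ind w y ∧ (∀ x : Fin k, Cor (fun a b : Fin r => Fm f (c x) (y (Fin.castAdd i a))
          (y (Fin.castAdd i b))) (j x))
  · rw [if_pos h]
    refine sum_congr rfl fun σ _ => ?_
    have hiff : ((∀ a, IsLk (N σ) (y a)) ∧ Ind w y ∧
        (∀ x : Fin k, Cor (fun a b : Fin r => Fm f (c x) (y (Fin.castAdd i a))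
          (y (Fin.castAdd i b))) (j x))) ↔
        (∀ a, IsLk (N σ) (y a)) := ⟨fun h3 => h3.1, fun h3 => ⟨h3, h.1, h.2⟩⟩
    simp only [hiff]
  · rw [if_neg h]
    refine sum_eq_zero fun σ _ => ?_
    have hiff : ((∀ a, IsLk (N σ) (y a)) ∧ Ind w y ∧
        (∀ x : Fin k, Cor (fun a b : Fin r => Fm f (c x) (y (Fin.castAdd i a))
          (y (Fin.castAdd i b))) (j x))) ↔
        False := ⟨fun h3 => h ⟨h3.2.1, h3.2.2⟩, fun h3 => h3.elim⟩
    simp only [hiff, if_false]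

lemma sum_Tn (w : U ⊕ J → ZMod 2) (f : Fin L → U ⊕ J → ZMod 2) (c : Fin k → Fin L → ZMod 2)
    (N : U ⊕ J → U ⊕ J → ZMod 2) (r i : ℕ) (j : Fin k → ℕ) :
    ∑ σ : ps J → ZMod 2, TnF w f c (pt N (sx σ)) r i j =
      ∑ y : Fin (r + i) → U ⊕ J → ZMod 2, if Ind w y ∧ CG f c r i j y then Pn N y else 0 := by
  rw [sum_Tn' w f c (fun σ : ps J → ZMod 2 => pt N (sx σ)) r i j]
  unfold Pn CG
  refine Finset.sum_congr (congrArg (@Finset.univ _) (Subsingleton.elim _ _)) fun y _ => ?_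
  by_cases h : Ind w y ∧ ∀ x : Fin k, Cor (fun a b : Fin r =>
      Fm f (c x) (y (Fin.castAdd i a)) (y (Fin.castAdd i b))) (j x)
  · rw [if_pos h, if_pos h]
  · rw [if_neg h, if_neg h]

/-- the comparison -/
lemma diff_y (hEQ : S_EQS) {n : ℕ} {w : U ⊕ J → ZMod 2} {N : U ⊕ J → U ⊕ J → ZMod 2}
    (hA : ∀ δ : J → J → ZMod 2, (∀ k l, δ k l = δ l k) →
      ∀ (n : ℕ) (y : Fin n → U ⊕ J → ZMod 2), (∀ a, IsLk (pt N δ) (y a)) → Ind w y →
      Aff (fun a k => y a (Sum.inr k)))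
    (hI : ∀ (n : ℕ) (y : Fin n → U ⊕ J → ZMod 2), Srj (fun a k => y a (Sum.inr k)) → Ind w y)
    (hP : ∀ (n : ℕ) (y : Fin n → U ⊕ J → ZMod 2),
      (univ.filter fun σ : ps J → ZMod 2 => ∀ a, IsLk (pt N (sx σ)) (y a)).card =
      if ∀ a, Ueq N (y a) then Sol (fun a k => y a (Sum.inr k)) (fun a k => hh N (y a) k) else 0)
    (y : Fin n → U ⊕ J → ZMod 2) (G : Prop) :
    |(if Ind w y ∧ G then (Pn N y : ℝ) else 0) * 2 ^ (n * Fintype.card J) -
      (if (∀ a, Ueq N (y a)) ∧ (∀ a b, Cpt N (y a) (y b)) ∧ G then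
        2 ^ ((ps J).card + n + n * (n - 1) / 2) else 0)| ≤
      if ¬ Srj (fun a k => y a (Sum.inr k)) then
        2 ^ ((ps J).card + n * 2 ^ n) +
          2 ^ ((ps J).card + n + n * (n - 1) / 2) else 0 := by
  by_cases hs : Srj (fun a k => y a (Sum.inr k))
  · rw [if_neg (not_not.2 hs)]
    have h1 := Pn_srj hEQ (w := w) hP y hs
    have hi := hI _ y hs
    refine le_of_eq (abs_eq_zero.2 ?_)
    rw [sub_eq_zero]
    by_cases hG : G
    · rw [if_pos ⟨hi, hG⟩]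
      have h2 : (Pn N y : ℝ) * 2 ^ (n * Fintype.card J) =
          ((if (∀ a, Ueq N (y a)) ∧ (∀ a b, Cpt N (y a) (y b)) then
        2 ^ ((ps J).card + n + n * (n - 1) / 2) else 0 : ℕ) : ℝ) := by
        rw [← h1]; push_cast; rfl
      rw [h2]
      by_cases h3 : (∀ a, Ueq N (y a)) ∧ (∀ a b, Cpt N (y a) (y b))
      · rw [if_pos h3, if_pos ⟨h3.1, h3.2, hG⟩]; push_cast; rfl
      · rw [if_neg h3, if_neg (fun hc => h3 ⟨hc.1, hc.2.1⟩)]; simp
    · rw [if_neg (fun hc => hG hc.2), if_neg (fun hc => hG hc.2.2), zero_mul]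
  · rw [if_pos hs]
    have a1 : |(if Ind w y ∧ G then (Pn N y : ℝ) else 0) *
        2 ^ (n * Fintype.card J)| ≤ 2 ^ ((ps J).card + n * 2 ^ n) := by
      rw [abs_of_nonneg (by split_ifs <;> positivity)]
      by_cases h : Ind w y ∧ G
      · rw [if_pos h]
        exact_mod_cast Pn_le hEQ hA hP y h.1
      · rw [if_neg h, zero_mul]; positivity
    have a2 : |(if (∀ a, Ueq N (y a)) ∧ (∀ a b, Cpt N (y a) (y b)) ∧ G then
        (2 : ℝ) ^ ((ps J).card + n + n * (n - 1) / 2) else 0)| ≤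
        2 ^ ((ps J).card + n + n * (n - 1) / 2) := by
      rw [abs_of_nonneg (by split_ifs <;> positivity)]
      split_ifs
      · exact le_refl _
      · positivity
    exact (abs_sub _ _).trans (add_le_add a1 a2)

/-- the number of the compatible tuples, as a sum over the Gram matrices -/
lemma card_Gp (f : Fin L → U ⊕ J → ZMod 2) (c : Fin k → Fin L → ZMod 2)
    (N : U ⊕ J → U ⊕ J → ZMod 2) (r i : ℕ) (j : Fin k → ℕ) :
    (univ.filter fun y : Fin (r + i) → U ⊕ J → ZMod 2 => Gp f c N r i j y).card =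
      ∑ β ∈ BB k r i j,
        (univ.filter fun y : Fin (r + i) → U ⊕ J → ZMod 2 => (∀ a, Ueq N (y a)) ∧
          (∀ a b, Cpt N (y a) (y b)) ∧ ∀ x a b, a < b → Fm f (c x) (y a) (y b) = β x a b).card := by
  rw [card_eq_sum_card_fiberwise (f := fun y : Fin (r + i) → U ⊕ J → ZMod 2 =>
    fun x a b => Fm f (c x) (y a) (y b)) (t := BB k r i j)]
  · refine sum_congr rfl fun β hβ => ?_
    rw [BB, mem_filter] at hβ
    congr 1
    ext y
    simp only [mem_filter, mem_univ, true_and]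
    constructor
    · rintro ⟨⟨h1, h2, h3⟩, rfl⟩
      exact ⟨h1, h2, fun x a b _ => rfl⟩
    · rintro ⟨h1, h2, h3⟩
      have h4 : (fun x a b => Fm f (c x) (y a) (y b)) = β := by
        funext x a b
        rcases lt_trichotomy a b with h | h | h
        · exact h3 x a b h
        · rw [h, Fm_self, (hβ.2 x).1.1]
        · rw [Fm_symm, h3 x b a h, (hβ.2 x).1.2]
      refine ⟨⟨h1, h2, ?_⟩, h4⟩
      intro x
      have h5 := (hβ.2 x).2
      rw [← h4] at h5
      exact h5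
  · intro y hy
    simp only [coe_filter, mem_univ, true_and, Set.mem_ofPred_eq, BB] at hy ⊢
    exact fun x => ⟨⟨fun a => Fm_self f (c x) (y a), fun a b => Fm_symm f (c x) (y a) (y b)⟩,
      hy.2.2 x⟩

end main

theorem t_MOM : Pool.Agent.N637.SLX.S_EQS → S_CNT → S_REL → S_MOM := by
  intro hEQ hCNT hREL k L r i j ε hε
  -- the constants
  set n := r + i with hn
  set K : ℝ := ((BB k r i j).card : ℝ) with hK
  have hK0 : 0 ≤ K := Nat.cast_nonneg _
  set A : ℝ := 2 ^ (n + n * (n - 1) / 2) with hA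
  have hA0 : 0 < A := by positivity
  set C : ℝ := 2 ^ (n * 2 ^ n) + A with hC
  have hC0 : 0 < C := by positivity
  obtain ⟨V₁, hV₁⟩ := hCNT n k L (ε / (2 * (A * K + 1))) (by positivity)
  have hρ : Tendsto (fun V : ℕ => (2 : ℝ) ^ n * (1 - (1 / 2) ^ n) ^ V) atTop (𝓝 0) := by
    have h1 : (0 : ℝ) < (1 / 2 : ℝ) ^ n := by positivity
    have h2 : (1 / 2 : ℝ) ^ n ≤ 1 := pow_le_one₀ (by norm_num) (by norm_num)
    have := (tendsto_pow_atTop_nhds_zero_of_lt_one (r := 1 - (1 / 2 : ℝ) ^ n) (by linarith)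
      (by linarith)).const_mul ((2 : ℝ) ^ n)
    simpa using this
  obtain ⟨V₂, hV₂⟩ := eventually_atTop.1
    ((hρ.eventually_le_const (zero_lt_one)).and
      (hρ.eventually_le_const (by positivity : (0 : ℝ) < ε / (2 * C))))
  refine ⟨max 1 (max V₁ V₂), ?_⟩
  intro U J _ _ _ w u f c N hS
  set V₀ := max 1 (max V₁ V₂) with hV₀
  have hR := hREL k L U J w u f c N (Stg_mono hS (le_max_left _ _))
  have hcnt := hV₁ U J w u f c N (Stg_mono hS ((le_max_left _ _).trans (le_max_right _ _)))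
  obtain ⟨b1, b2⟩ := hV₂ V₀ ((le_max_right _ _).trans (le_max_right _ _))
  have hT : V₀ * (Fintype.card U + 1) ≤ Fintype.card J := by
    refine (hS.cc 1 0 (Or.inl one_ne_zero)).trans ?_
    rw [← card_univ]
    exact card_le_card (filter_subset _ _)
  have hbad0 := srj_bound (U := U) (J := J) n V₀ (le_max_left _ _) b1 hT
  -- the comparison
  set PS := (ps J).card with hPS
  set X : ℝ := 2 ^ (n * Fintype.card J) with hX
  have hX0 : 0 < X := by positivity
  set Bd : ℝ := ((univ.filter fun y : Fin n → U ⊕ J → ZMod 2 =>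
    ¬ Srj (fun a k => y a (Sum.inr k))).card : ℝ) with hBd
  set Gc : ℝ := ((univ.filter fun y : Fin n → U ⊕ J → ZMod 2 => Gp f c N r i j y).card : ℝ)
    with hGc
  set S : ℝ := ∑ σ : ps J → ZMod 2, (TnF w f c (pt N (sx σ)) r i j : ℝ) with hSdef
  have hS1 : S = ∑ y : Fin n → U ⊕ J → ZMod 2,
      if Ind w y ∧ CG f c r i j y then (Pn N y : ℝ) else 0 := by
    have h1 := sum_Tn w f c N r i j
    have h2 : S = ((∑ σ : ps J → ZMod 2, TnF w f c (pt N (sx σ)) r i j : ℕ) : ℝ) := by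
      rw [hSdef]; push_cast; rfl
    rw [h2, h1]
    push_cast
    rfl
  have hdiff : |S * X - 2 ^ (PS + n + n * (n - 1) / 2) * Gc| ≤
      (2 ^ (PS + n * 2 ^ n) + 2 ^ (PS + n + n * (n - 1) / 2)) * Bd := by
    have e1 : 2 ^ (PS + n + n * (n - 1) / 2) * Gc = ∑ y : Fin n → U ⊕ J → ZMod 2,
        if Gp f c N r i j y then (2 : ℝ) ^ (PS + n + n * (n - 1) / 2) else 0 := by
      rw [← sum_filter, sum_const, nsmul_eq_mul, mul_comm]
    have e2 : (2 ^ (PS + n * 2 ^ n) + 2 ^ (PS + n + n * (n - 1) / 2)) * Bd =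
        ∑ y : Fin n → U ⊕ J → ZMod 2, if ¬ Srj (fun a k => y a (Sum.inr k)) then
          (2 : ℝ) ^ (PS + n * 2 ^ n) + 2 ^ (PS + n + n * (n - 1) / 2) else 0 := by
      rw [← sum_filter, sum_const, nsmul_eq_mul, mul_comm]
    rw [hS1, e1, e2, sum_mul, ← sum_sub_distrib]
    refine (abs_sum_le_sum_abs _ _).trans (sum_le_sum fun y _ => ?_)
    have h5 := diff_y hEQ (fun δ hδ => (hR.1 δ hδ).2.2.2) hR.2.1 hR.2.2 y (CG f c r i j y)
    rw [if_congr (show Gp f c N r i j y ↔ ((∀ a, Ueq N (y a)) ∧ (∀ a b, Cpt N (y a) (y b)) ∧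
      CG f c r i j y) from Iff.rfl) rfl rfl]
    exact h5
  -- the count of the compatible tuples
  have hG1 : |Gc - K * (X / 2 ^ ((k + 1) * (n * (n - 1) / 2)))| ≤
      K * (ε / (2 * (A * K + 1)) * X) := by
    have h1 := card_Gp f c N r i j
    have h2 : Gc = ∑ β ∈ BB k r i j,
        ((univ.filter fun y : Fin (r + i) → U ⊕ J → ZMod 2 => (∀ a, Ueq N (y a)) ∧
          (∀ a b, Cpt N (y a) (y b)) ∧
            ∀ x a b, a < b → Fm f (c x) (y a) (y b) = β x a b).card : ℝ) := by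
      rw [hGc, h1]; push_cast; rfl
    have h3 : K * (X / 2 ^ ((k + 1) * (n * (n - 1) / 2))) =
        ∑ β ∈ BB k r i j, X / 2 ^ ((k + 1) * (n * (n - 1) / 2)) := by
      rw [sum_const, nsmul_eq_mul]
    have h4 : K * (ε / (2 * (A * K + 1)) * X) =
        ∑ β ∈ BB k r i j, ε / (2 * (A * K + 1)) * X := by
      rw [sum_const, nsmul_eq_mul]
    rw [h2, h3, h4, ← sum_sub_distrib]
    exact (abs_sum_le_sum_abs _ _).trans (sum_le_sum fun β _ => hcnt β)
  -- powers of two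
  have hP0 : (0 : ℝ) < 2 ^ PS := by positivity
  have p1 : (2 : ℝ) ^ (PS + n + n * (n - 1) / 2) = 2 ^ PS * A := by
    rw [hA, ← pow_add, add_assoc]
  have p2 : (2 : ℝ) ^ (PS + n * 2 ^ n) = 2 ^ PS * 2 ^ (n * 2 ^ n) := pow_add _ _ _
  have p3 : A * (K / 2 ^ ((k + 1) * (n * (n - 1) / 2))) =
      2 ^ n * ∏ x, ((alt r (j x) : ℝ) / 2 ^ (r * (r - 1) / 2)) := by
    have h1 : K / 2 ^ (k * (n * (n - 1) / 2)) =
        ∏ x, ((alt r (j x) : ℝ) / 2 ^ (r * (r - 1) / 2)) := BB_eq k r i j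
    have h3 : (2 : ℝ) ^ ((k + 1) * (n * (n - 1) / 2)) =
        2 ^ (n * (n - 1) / 2) * 2 ^ (k * (n * (n - 1) / 2)) := by
      rw [← pow_add]
      congr 1
      ring
    rw [← h1, hA, h3, pow_add]
    field_simp
  rw [p1, p2] at hdiff
  -- conclusion
  have f1 : |S / 2 ^ PS - A * Gc / X| ≤ C * (Bd / X) := by
    have e1 : S / 2 ^ PS - A * Gc / X = (S * X - 2 ^ PS * A * Gc) / (2 ^ PS * X) := by
      field_simp
    rw [e1, abs_div, abs_of_pos (by positivity : (0 : ℝ) < 2 ^ PS * X),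
      div_le_iff₀ (by positivity)]
    refine hdiff.trans (le_of_eq ?_)
    rw [hC]
    field_simp
  have f2 : |A * Gc / X - A * (K / 2 ^ ((k + 1) * (n * (n - 1) / 2)))| ≤ ε / 2 := by
    have e1 : A * Gc / X - A * (K / 2 ^ ((k + 1) * (n * (n - 1) / 2))) =
        A * (Gc - K * (X / 2 ^ ((k + 1) * (n * (n - 1) / 2)))) / X := by
      field_simp
    rw [e1, abs_div, abs_mul, abs_of_pos hA0, abs_of_pos hX0, div_le_iff₀ hX0]
    calc A * |Gc - K * (X / 2 ^ ((k + 1) * (n * (n - 1) / 2)))| ≤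
        A * (K * (ε / (2 * (A * K + 1)) * X)) := by
          gcongr
      _ = (A * K) / (A * K + 1) * (ε / 2 * X) := by field_simp
      _ ≤ 1 * (ε / 2 * X) := by
          gcongr
          rw [div_le_one (by positivity)]
          linarith
      _ = ε / 2 * X := one_mul _
  have hbad : Bd / X ≤ 2 ^ n * (1 - (1 / 2) ^ n) ^ V₀ := by
    refine le_trans (le_of_eq ?_) hbad0
    rw [hBd]
    exact congrArg (fun x : ℕ => (x : ℝ) / X) (Pool.Agent.N701.SLX.card_inst _ _ _ _ _)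
  have f3 : C * (Bd / X) ≤ ε / 2 := by
    calc C * (Bd / X) ≤ C * (ε / (2 * C)) :=
          mul_le_mul_of_nonneg_left (hbad.trans b2) hC0.le
      _ = ε / 2 := by field_simp
  rw [← p3]
  have e3 : S / 2 ^ PS - A * (K / 2 ^ ((k + 1) * (n * (n - 1) / 2))) =
      (S / 2 ^ PS - A * Gc / X) +
      (A * Gc / X - A * (K / 2 ^ ((k + 1) * (n * (n - 1) / 2)))) := by ring
  rw [e3]
  refine (abs_add_le _ _).trans ?_
  linarith

end Pool.Agent.N456.SLK
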